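import Pool.Agent.Y690.JP.Stm
import Pool.Agent.Y405.PP.Comb

/-!
# Project JP, job JP-COMA: if the character is constant, it is trivial
-/

set_option autoImplicit false

open Finset

namespace Pool.Agent.Y455.JP

open Pool.Agent.Y690.PP Pool.Agent.Y405.PP

variable {k : ℕ}

open Classical in
/-- restriction to `J` -/
noncomputable def pr (J : Finset (Fin k)) (u : Ix k) : Ix k := fun i => if i ∈ J then u i else 0

theorem pr_add (J : Finset (Fin k)) (u v : Ix k) : pr J (u + v) = pr J u + pr J v := by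
  funext i
  simp only [pr, Pi.add_apply]
  split_ifs <;> simp

theorem pr_zero (J : Finset (Fin k)) : pr J (0 : Ix k) = 0 := by
  funext i
  simp [pr]

theorem QQ_pr (J : Finset (Fin k)) (u : Ix k) : QQ (pr J u) = ∑ i ∈ J, (u i).1 * (u i).2 := by
  classical
  unfold QQ
  rw [← sum_subset (subset_univ J)]
  · refine sum_congr rfl fun i hi => ?_
    simp only [pr, if_pos hi]
  · intro i _ hi
    simp only [pr, if_neg hi, Prod.fst_zero, zero_mul]

theorem bb_pr (J : Finset (Fin k)) (u v : Ix k) : bb (pr J u) v = bb u (pr J v) := by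
  unfold bb
  refine sum_congr rfl fun i _ => ?_
  simp only [pr]
  split_ifs <;> simp

theorem pr_pr (J : Finset (Fin k)) (u : Ix k) : pr J (pr J u) = pr J u := by
  funext i
  simp only [pr]
  split_ifs <;> rfl

theorem eq_of_add (x y : ZMod 2) (h : x + y = 0) : x = y := by
  have h2 := two_eq y
  calc x = x + (y + y) := by rw [h2, add_zero]
    _ = (x + y) + y := by ring
    _ = y := by rw [h, zero_add]

/-- one component -/
theorem comp_zero {L : Finset (Ix k)} (h : MT L) (J : Finset (Fin k)) (w : Ix k)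
    (hw : pr J w = w) (hc : ∀ u ∈ L, QQ (pr J u + w) = QQ (pr J 0 + w)) :
    ∀ u ∈ L, QQ (pr J u + w) = 0 := by
  have h1 : ∀ u ∈ L, QQ (pr J u) = bb (pr J u) w := by
    intro u hu
    have h2 := hc u hu
    rw [pr_zero, zero_add, QQ_add] at h2
    apply eq_of_add
    have h3 : QQ (pr J u) + bb (pr J u) w = (QQ (pr J u) + QQ w + bb (pr J u) w) - QQ w := by ring
    rw [h3, h2, sub_self]
  have h2 : ∀ u ∈ L, ∀ v ∈ L, bb v (pr J u) = 0 := by
    intro u hu v hv
    have h3 := h1 _ (h.add hu hv)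
    rw [pr_add, QQ_add, bb_add_left, h1 u hu, h1 v hv] at h3
    have h4 : bb (pr J u) (pr J v) = 0 := by
      have h5 : bb (pr J u) w + bb (pr J v) w + bb (pr J u) (pr J v) -
        (bb (pr J u) w + bb (pr J v) w) = 0 := by rw [h3, sub_self]
      rw [← h5]; ring
    rw [bb_symm, ← pr_pr, bb_pr]
    exact h4
  have h3 : ∀ u ∈ L, pr J u ∈ L := fun u hu => h.max _ fun v hv => h2 u hu v hv
  have h4 : ∀ u ∈ L, bb (pr J u) w = 0 := fun u hu => by
    rw [← h1 u hu, h.2.2 _ (h3 u hu)]
  have h5 : w ∈ L := h.max w fun u hu => by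
    have := h4 u hu
    rwa [bb_pr, hw] at this
  intro u hu
  rw [QQ_add, h4 u hu, h.2.2 _ (h3 u hu), h.2.2 _ h5]
  rfl

/-- **JP-COMA**. -/
theorem t_COMA : Pool.Agent.Y690.JP.SCOMA := by
  classical
  intro Q0 K J β L hL hcard hne
  by_contra hcon
  push Not at hcon
  obtain ⟨u, hu, hne⟩ := hne
  apply hne
  have hQ : ∀ u ∈ L, QQ u = 0 := by
    intro u hu
    by_cases h0 : (0 : Ix K) ∈ L
    · have := congrArg Prod.fst (hcon u hu 0 h0)
      simp only [Pool.Agent.Y690.JP.tt] at this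
      rw [this, QQ_zero]
    · obtain ⟨u', hu', hQ'⟩ := part2b L hL hcard 0 h0
      have := congrArg Prod.fst (hcon u hu u' hu')
      simp only [Pool.Agent.Y690.JP.tt] at this
      rw [this]
      simpa using hQ'
  have hMT : MT L := ⟨hL, hcard, hQ⟩
  have key : ∀ (b : Q0) (v : Ix K), (∑ i ∈ J b, ((v i).1 + (β i b).1) * ((v i).2 + (β i b).2)) =
      QQ (pr (J b) v + pr (J b) (fun i => β i b)) := by
    intro b v
    rw [← pr_add, QQ_pr]
    rfl
  refine Prod.ext (hQ u hu) (funext fun b => ?_)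
  change (∑ i ∈ J b, ((u i).1 + (β i b).1) * ((u i).2 + (β i b).2)) = 0
  rw [key]
  refine comp_zero hMT (J b) _ (pr_pr _ _) ?_ u hu
  intro v hv
  rw [← key, ← key]
  exact congrFun (congrArg Prod.snd (hcon v hv 0 hMT.zero)) b

end Pool.Agent.Y455.JP
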